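import Pool.Agent.Y245.SG.Stm

/-!
# SG-SOL2 (job 7268): the second solution, with a logarithm (helper96)
-/

set_option autoImplicit false

open Complex Polynomial Filter Topology

namespace Pool.Agent.Y96.SG

open Pool.Agent.Y245.SG

/-- harmonic numbers -/
noncomputable def hn (k : ℕ) : ℂ := ∑ i ∈ Finset.range k, 1 / ((i : ℂ) + 1)

/-- the coefficients of the second solution -/
noncomputable def vc (k : ℕ) : ℂ := -2 * hn k * (-1) ^ k / ((k.factorial : ℂ) ^ 2)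

theorem norm_hn (k : ℕ) : ‖hn k‖ ≤ k := by
  unfold hn
  refine (norm_sum_le _ _).trans ?_
  have h : ∀ i ∈ Finset.range k, ‖1 / ((i : ℂ) + 1)‖ ≤ 1 := by
    intro i _
    rw [norm_div, norm_one]
    have h1 : ‖(i : ℂ) + 1‖ = (i : ℝ) + 1 := by
      have : (i : ℂ) + 1 = ((i + 1 : ℕ) : ℂ) := by push_cast; ring
      rw [this, Complex.norm_natCast]
      push_cast
      ring
    rw [h1, div_le_one (by positivity)]
    have : (0 : ℝ) ≤ i := Nat.cast_nonneg i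
    linarith
  refine (Finset.sum_le_sum h).trans ?_
  simp

theorem norm_vc (k : ℕ) : ‖vc k‖ ≤ 2 * k / (k.factorial : ℝ) ^ 2 := by
  unfold vc
  rw [norm_div, norm_mul, norm_mul, norm_pow, norm_pow, norm_neg, norm_neg, norm_one, one_pow,
    mul_one, Complex.norm_natCast, Complex.norm_ofNat]
  have := norm_hn k
  gcongr

/-- recurrence of the coefficients -/
theorem vc_rec (k : ℕ) : ((k : ℂ) + 1) ^ 2 * vc (k + 1) =
    -vc k + 2 * ((-1) ^ k / ((k.factorial : ℂ) * ((k + 1).factorial : ℂ))) := by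
  have h1 : hn (k + 1) = hn k + 1 / ((k : ℂ) + 1) := Finset.sum_range_succ _ _
  have h2 : (((k + 1).factorial : ℕ) : ℂ) = ((k : ℂ) + 1) * (k.factorial : ℂ) := by
    rw [Nat.factorial_succ]
    push_cast
    ring
  have h3 : (k.factorial : ℂ) ≠ 0 := by exact_mod_cast k.factorial_ne_zero
  have h4 : (k : ℂ) + 1 ≠ 0 := by exact_mod_cast k.succ_ne_zero
  unfold vc
  rw [h1, h2, pow_succ]
  field_simp
  ring

/-- the terms of the series -/
noncomputable def ft (j k : ℕ) (ω : ℂ) : ℂ := (k : ℂ) ^ j * vc k * exp (k * ω)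

theorem ft_deriv (j k : ℕ) (ω : ℂ) : HasDerivAt (ft j k) (ft (j + 1) k ω) ω := by
  unfold ft
  have h1 : HasDerivAt (fun ω : ℂ => (k : ℂ) * ω) (k : ℂ) ω := by
    simpa using (hasDerivAt_id ω).const_mul (k : ℂ)
  have h2 := (h1.cexp).const_mul ((k : ℂ) ^ j * vc k)
  refine h2.congr_deriv ?_
  ring

/-- the bound -/
noncomputable def ub (j : ℕ) (R : ℝ) (k : ℕ) : ℝ :=
  2 * ((2 ^ (j + 1) * Real.exp R) ^ k / (k.factorial : ℝ))

theorem ub_summable (j : ℕ) (R : ℝ) : Summable (ub j R) :=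
  (Real.summable_pow_div_factorial _).mul_left 2

theorem norm_ft (j k : ℕ) (R : ℝ) (ω : ℂ) (h : ω.re ≤ R) : ‖ft j k ω‖ ≤ ub j R k := by
  unfold ft ub
  rw [norm_mul, norm_mul, norm_pow, Complex.norm_natCast, Complex.norm_exp]
  have h1 := norm_vc k
  have h2 : ((k : ℂ) * ω).re = k * ω.re := by simp
  rw [h2]
  have h3 : Real.exp (k * ω.re) ≤ Real.exp R ^ k := by
    rw [← Real.exp_nat_mul]
    apply Real.exp_le_exp.2
    exact mul_le_mul_of_nonneg_left h (Nat.cast_nonneg k)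
  have h4 : (k : ℝ) ≤ 2 ^ k := by
    exact_mod_cast (Nat.lt_two_pow_self (n := k)).le
  have h5 : (1 : ℝ) ≤ (k.factorial : ℝ) := by exact_mod_cast k.factorial_pos
  have h6 : (0 : ℝ) ≤ k := Nat.cast_nonneg k
  have h7 : (k : ℝ) ^ j * ‖vc k‖ ≤ 2 * (2 ^ (j + 1)) ^ k / (k.factorial : ℝ) := by
    have h8 : (k : ℝ) ^ j * (2 * k / (k.factorial : ℝ) ^ 2) =
        2 * (k : ℝ) ^ (j + 1) / (k.factorial : ℝ) ^ 2 := by ring
    have h9 : (k : ℝ) ^ (j + 1) ≤ (2 ^ (j + 1)) ^ k := by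
      calc (k : ℝ) ^ (j + 1) ≤ (2 ^ k) ^ (j + 1) := by gcongr
        _ = (2 ^ (j + 1)) ^ k := by rw [← pow_mul, ← pow_mul, mul_comm]
    have h10 : (k.factorial : ℝ) ≤ (k.factorial : ℝ) ^ 2 := by nlinarith
    calc (k : ℝ) ^ j * ‖vc k‖ ≤ (k : ℝ) ^ j * (2 * k / (k.factorial : ℝ) ^ 2) := by gcongr
      _ = 2 * (k : ℝ) ^ (j + 1) / (k.factorial : ℝ) ^ 2 := h8
      _ ≤ 2 * (2 ^ (j + 1)) ^ k / (k.factorial : ℝ) := by gcongr
  calc (k : ℝ) ^ j * ‖vc k‖ * Real.exp (k * ω.re)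
      ≤ (2 * (2 ^ (j + 1)) ^ k / (k.factorial : ℝ)) * Real.exp R ^ k := by gcongr
    _ = 2 * ((2 ^ (j + 1) * Real.exp R) ^ k / (k.factorial : ℝ)) := by
      rw [mul_pow]
      ring

theorem ft_summable (j : ℕ) (ω : ℂ) : Summable fun k => ft j k ω :=
  Summable.of_norm_bounded (ub_summable j ω.re) fun k => norm_ft j k ω.re ω le_rfl

/-- the sums -/
noncomputable def Sf (j : ℕ) (ω : ℂ) : ℂ := ∑' k : ℕ, ft j k ω

theorem Sf_deriv (j : ℕ) (ω : ℂ) : HasDerivAt (Sf j) (Sf (j + 1) ω) ω := by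
  have hopen : IsOpen {y : ℂ | y.re < ω.re + 1} := isOpen_lt Complex.continuous_re continuous_const
  have hconv : IsPreconnected {y : ℂ | y.re < ω.re + 1} :=
    (convex_halfSpace_re_lt _).isPreconnected
  have hmem : ω ∈ {y : ℂ | y.re < ω.re + 1} := by simp
  exact hasDerivAt_tsum_of_isPreconnected (ub_summable (j + 1) (ω.re + 1)) hopen hconv
    (fun k y _ => ft_deriv j k y) (fun k y hy => norm_ft (j + 1) k (ω.re + 1) y (le_of_lt hy))
    hmem (ft_summable j ω) hmem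

theorem Sf_per (j : ℕ) (ω : ℂ) : Sf j (ω + 2 * Real.pi * I) = Sf j ω := by
  unfold Sf ft
  congr 1
  ext k
  congr 1
  rw [mul_add, Complex.exp_add]
  have : exp ((k : ℂ) * (2 * Real.pi * I)) = 1 := by
    rw [Complex.exp_eq_one_iff]
    exact ⟨k, by push_cast; ring⟩
  rw [this, mul_one]

theorem exp_per (ω : ℂ) : exp (ω + 2 * Real.pi * I) = exp ω := Complex.exp_periodic ω

/-- the second order equation -/
theorem Sf_two (hB : S_BES) (ω : ℂ) :
    Sf 2 ω = -(exp ω) * Sf 0 ω + 2 * exp ω * Bn 1 (exp ω) := by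
  have h1 : HasSum (fun k => ft 2 k ω) (Sf 2 ω) := (ft_summable 2 ω).hasSum
  have h2 := (hasSum_nat_add_iff' 1).2 h1
  rw [Finset.sum_range_one] at h2
  have h0 : ft 2 0 ω = 0 := by simp [ft]
  rw [h0, sub_zero] at h2
  have h3 : HasSum (fun k => ft 0 k ω) (Sf 0 ω) := (ft_summable 0 ω).hasSum
  have h4 := (hB 1).2.1 (exp ω)
  have h5 := (h3.mul_left (-(exp ω))).add (h4.mul_left (2 * exp ω))
  refine h2.unique ?_
  refine HasSum.congr_fun h5 ?_
  intro k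
  show ft 2 (k + 1) ω = -(exp ω) * ft 0 k ω +
    2 * exp ω * ((-exp ω) ^ k / ((k.factorial : ℂ) * ((k + 1).factorial : ℂ)))
  unfold ft
  have e1 : exp (((k + 1 : ℕ) : ℂ) * ω) = exp ω * exp ω ^ k := by
    rw [← Complex.exp_nat_mul, ← Complex.exp_add]
    congr 1
    push_cast
    ring
  have e2 : exp ((k : ℂ) * ω) = exp ω ^ k := by rw [← Complex.exp_nat_mul]
  have e3 : (-exp ω) ^ k = (-1) ^ k * exp ω ^ k := by rw [neg_pow]
  have e4 := vc_rec k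
  rw [e1, e2, e3]
  push_cast
  rw [e4]
  ring

theorem sol2 : S_SOL2 := by
  intro hB
  have hb0 : ∀ ω : ℂ, HasDerivAt (fun ω => Bn 0 (exp ω)) (-(exp ω) * Bn 1 (exp ω)) ω := by
    intro ω
    have h1 := ((hB 0).2.2.1 (exp ω)).comp ω (Complex.hasDerivAt_exp ω)
    refine h1.congr_deriv ?_
    rw [show (0 + 1 : ℕ) = 1 from rfl]
    ring
  have hb1 : ∀ ω : ℂ, HasDerivAt (fun ω => Bn 1 (exp ω)) (Bn 0 (exp ω) - Bn 1 (exp ω)) ω := by
    intro ω
    have h1 := ((hB 1).2.2.1 (exp ω)).comp ω (Complex.hasDerivAt_exp ω)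
    refine h1.congr_deriv ?_
    have h2 := (hB 0).2.2.2 (exp ω)
    simp only [Nat.cast_zero, zero_add, one_mul] at h2
    rw [show (1 + 1 : ℕ) = 2 from rfl]
    linear_combination -h2
  have hexp : ∀ ω : ℂ, HasDerivAt (fun ω => exp (-ω)) (-exp (-ω)) ω := by
    intro ω
    have h1 := (hasDerivAt_neg ω).cexp
    refine h1.congr_deriv ?_
    ring
  have hee : ∀ ω : ℂ, exp (-ω) * exp ω = 1 := by
    intro ω
    rw [← Complex.exp_add]
    simp
  let v1 : ℂ → ℂ := fun ω => -(exp (-ω) * (Bn 0 (exp ω) + Sf 1 ω))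
  have hv1 : ∀ ω, HasDerivAt v1 (Sf 0 ω - v1 ω - Bn 1 (exp ω)) ω := by
    intro ω
    have h1 := ((hexp ω).mul ((hb0 ω).add (Sf_deriv 1 ω))).neg
    refine h1.congr_deriv ?_
    have h2 := Sf_two hB ω
    have h3 := hee ω
    show -(-exp (-ω) * (Bn 0 (exp ω) + Sf 1 ω) +
      exp (-ω) * (-(exp ω) * Bn 1 (exp ω) + Sf 2 ω)) =
      Sf 0 ω - -(exp (-ω) * (Bn 0 (exp ω) + Sf 1 ω)) - Bn 1 (exp ω)
    rw [h2]
    linear_combination (Sf 0 ω - Bn 1 (exp ω)) * h3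
  refine ⟨Sf 0, v1, fun ω => (Sf_deriv 0 ω).differentiableAt, fun ω => (hv1 ω).differentiableAt,
    Sf_per 0, ?_, ?_⟩
  · intro ω
    show -(exp (-(ω + 2 * Real.pi * I)) * (Bn 0 (exp (ω + 2 * Real.pi * I)) +
      Sf 1 (ω + 2 * Real.pi * I))) = -(exp (-ω) * (Bn 0 (exp ω) + Sf 1 ω))
    rw [Sf_per, exp_per, Complex.exp_neg, exp_per, ← Complex.exp_neg]
  · intro ω
    refine ⟨?_, ?_⟩
    · have h1 := ((hasDerivAt_id ω).mul (hb0 ω)).add (Sf_deriv 0 ω)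
      refine h1.congr_deriv ?_
      have h3 := hee ω
      show (1 * Bn 0 (exp ω) + ω * (-(exp ω) * Bn 1 (exp ω))) + Sf 1 ω =
        -(exp ω) * (ω * Bn 1 (exp ω) + -(exp (-ω) * (Bn 0 (exp ω) + Sf 1 ω)))
      linear_combination -(Bn 0 (exp ω) + Sf 1 ω) * h3
    · have h1 := ((hasDerivAt_id ω).mul (hb1 ω)).add (hv1 ω)
      refine h1.congr_deriv ?_
      show (1 * Bn 1 (exp ω) + ω * (Bn 0 (exp ω) - Bn 1 (exp ω))) +
          (Sf 0 ω - v1 ω - Bn 1 (exp ω)) =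
        ω * Bn 0 (exp ω) + Sf 0 ω - (ω * Bn 1 (exp ω) + v1 ω)
      ring

end Pool.Agent.Y96.SG
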